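import Pool.Agent.Helper43_HAM.Stmts

/-!
# HAM, module GRU: the vertices of the word
-/

namespace Pool.Agent.HAM.H66

open Pool.Agent.HAM

theorem run_cons {I : Type} (new : ℕ → I) (s : St I) (o : Op) (w : List Op) :
    run new s (o :: w) = run new (step new s o) w := rfl

theorem run_append {I : Type} (new : ℕ → I) (s : St I) (w w' : List Op) :
    run new s (w ++ w') = run new (run new s w) w' := by
  unfold run
  rw [List.foldl_append]

theorem st_ext {I : Type} {s t : St I} (h1 : s.fr = t.fr) (h2 : s.m = t.m) (h3 : s.vs = t.vs) :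
    s = t := by
  cases s; cases t; simp_all

/-- naturality of the run of a word -/
theorem run_nat (f : ℕ → ℕ) (b0 : ℕ) (R : List ℕ) (vs0 : List (List ℕ × List ℕ)) :
    ∀ (w : List Op) (n' : ℕ) (s : St (ℕ ⊕ ℕ)), NoRot w → legal w s.fr.length n' →
    run id ⟨s.fr.map (lab f b0) ++ R, b0 + s.m,
      vs0 ++ s.vs.map (fun v => (v.1.map (lab f b0), v.2.map (lab f b0)))⟩ w =
      ⟨(run Sum.inr s w).fr.map (lab f b0) ++ R, b0 + (run Sum.inr s w).m,
        vs0 ++ (run Sum.inr s w).vs.map
          (fun v => (v.1.map (lab f b0), v.2.map (lab f b0)))⟩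
  | [], _, _, _, _ => rfl
  | .rot k :: w, _, _, hn, _ => absurd (List.mem_cons_self) (hn k)
  | .vtx i a b :: w, n', s, hn, hl => by
    obtain ⟨ha, hb, hia, han, hl'⟩ := hl
    rw [run_cons, run_cons]
    have hw : NoRot w := fun k hk => hn k (List.mem_cons_of_mem _ hk)
    have hlen : (step Sum.inr s (.vtx i a b)).fr.length = s.fr.length - a + b := by
      simp only [step, List.length_append, List.length_take, List.length_map, List.length_range',
        List.length_drop]
      omega
    have ih := run_nat f b0 R vs0 w n' (step Sum.inr s (.vtx i a b)) hw (by rw [hlen]; exact hl')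
    rw [← ih]
    congr 1
    have hnew : (List.range' (b0 + s.m) b).map id =
        ((List.range' s.m b).map Sum.inr).map (lab f b0) := by
      rw [List.map_map, List.map_id]
      apply List.ext_getElem
      · simp
      · intro k hk _
        simp [lab]
        omega
    apply st_ext
    · simp only [step, hnew, List.map_append, List.append_assoc]
      rw [List.take_append_of_le_length (by rw [List.length_map]; omega),
        List.drop_append_of_le_length (by rw [List.length_map]; omega), List.map_take,
        List.map_drop]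
    · simp only [step]; omega
    · simp only [step, hnew, List.map_append, List.append_assoc, List.map_cons, List.map_nil]
      rw [List.drop_append_of_le_length (by rw [List.length_map]; omega),
        List.take_append_of_le_length (by rw [List.length_drop, List.length_map]; omega),
        List.map_take, List.map_drop]

/-- the run of a tile in normal form -/
theorem run_tile {w : List Op} {n n' J : ℕ} (h : Normal w n n' J) (f : ℕ → ℕ) (b : ℕ)
    (R : List ℕ) (vs : List (List ℕ × List ℕ)) :
    run id ⟨(List.range n).map f ++ R, b, vs⟩ w =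
      ⟨List.range' (b + J - n') n' ++ R, b + J, vs ++ tile w n f b⟩ := by
  obtain ⟨h1, h2, h3, _, h5⟩ := h
  have h6 := h5 (ℕ ⊕ ℕ) Sum.inr ((List.range n).map Sum.inl) [] 0 (by simp)
  have h7 := run_nat f b R vs w n' ⟨(List.range n).map Sum.inl, 0, []⟩ h1 (by simpa using h2)
  have e1 : ((List.range n).map Sum.inl).map (lab f b) = (List.range n).map f := by
    rw [List.map_map]
    rfl
  simp only [e1, List.map_nil, List.append_nil, Nat.add_zero] at h7
  rw [h7, h6.1, h6.2]
  apply st_ext
  · simp only
    congr 1
    rw [List.map_map]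
    apply List.ext_getElem
    · simp
    · intro k hk _
      simp [lab]
      omega
  · simp only; omega
  · rfl

/-- the first `k` of the last `2k` edges created by the tile `q` -/
def SS {A : Type} (T : Tiles A) (q : ℕ) : List ℕ :=
  List.range' (4 + T.js + T.J * (q + 1) - 2 * T.k) T.k

theorem SS_length {A : Type} (T : Tiles A) (q : ℕ) : (SS T q).length = T.k := by simp [SS]

theorem range'_eq_map (s n : ℕ) : List.range' s n = (List.range n).map (s + ·) := by
  rw [List.range_eq_range', List.map_add_range']; simp

theorem map_range_add (f : ℕ → ℕ) (a b : ℕ) (s t : ℕ) (h1 : ∀ i < a, f i = s + i)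
    (h2 : ∀ i < b, f (a + i) = t + i) :
    (List.range (a + b)).map f = List.range' s a ++ List.range' t b := by
  rw [List.range_add, List.map_append, List.map_map, range'_eq_map, range'_eq_map]
  congr 1
  · apply List.map_congr_left
    intro i hi
    exact h1 i (List.mem_range.1 hi)
  · apply List.map_congr_left
    intro i hi
    exact h2 i (List.mem_range.1 hi)

theorem step_rot {I : Type} (new : ℕ → I) (l r : List I) (m : ℕ) (vs : List (List I × List I)) :
    step new ⟨l ++ r, m, vs⟩ (.rot l.length) = ⟨r ++ l, m, vs⟩ := by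
  simp [step, List.rotate_append_length_eq]

/-- the rows -/
theorem run_rows {A : Type} (T : Tiles A) (hT : T.Good) : ∀ (v : List A) (p : ℕ)
    (vs : List (List ℕ × List ℕ)) (R : List ℕ),
    run id ⟨List.range' (4 + T.js + T.J * p - T.k) T.k ++ R, 4 + T.js + T.J * p, vs⟩
      (v.flatMap fun a => T.row a ++ [.rot T.k]) =
    ⟨List.range' (4 + T.js + T.J * (p + v.length) - T.k) T.k ++ (R ++
        (List.range' p v.length).flatMap (SS T)), 4 + T.js + T.J * (p + v.length),
      vs ++ ((v.zipIdx p).flatMap fun x => tile (T.row x.1) T.k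
        (fun i => 4 + T.js + T.J * x.2 - T.k + i) (4 + T.js + T.J * x.2))⟩
  | [], p, vs, R => by simp [run]
  | a :: v, p, vs, R => by
    have hrow := hT.row a
    have hk := hT.hk
    have hJ : 2 * T.k ≤ T.J := hrow.2.2.1
    rw [List.flatMap_cons, run_append, run_append]
    rw [range'_eq_map (4 + T.js + T.J * p - T.k) T.k]
    rw [run_tile hrow (fun i => 4 + T.js + T.J * p - T.k + i)]
    have e1 : List.range' (4 + T.js + T.J * p + T.J - 2 * T.k) (2 * T.k) =
        SS T p ++ List.range' (4 + T.js + T.J * (p + 1) - T.k) T.k := by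
      rw [two_mul T.k, ← List.range'_append_1]
      unfold SS
      have h3 : T.J * (p + 1) = T.J * p + T.J := by ring
      rw [h3]
      congr 2 <;> omega
    rw [e1]
    have e2 : run id ⟨SS T p ++ List.range' (4 + T.js + T.J * (p + 1) - T.k) T.k ++ R,
        4 + T.js + T.J * p + T.J, vs ++ tile (T.row a) T.k
          (fun i => 4 + T.js + T.J * p - T.k + i) (4 + T.js + T.J * p)⟩ [.rot T.k] =
        ⟨List.range' (4 + T.js + T.J * (p + 1) - T.k) T.k ++ (R ++ SS T p),
        4 + T.js + T.J * (p + 1), vs ++ tile (T.row a) T.k
          (fun i => 4 + T.js + T.J * p - T.k + i) (4 + T.js + T.J * p)⟩ := by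
      have h4 := step_rot (id : ℕ → ℕ) (SS T p)
        (List.range' (4 + T.js + T.J * (p + 1) - T.k) T.k ++ R) (4 + T.js + T.J * p + T.J)
        (vs ++ tile (T.row a) T.k
          (fun i => 4 + T.js + T.J * p - T.k + i) (4 + T.js + T.J * p))
      rw [SS_length] at h4
      rw [run_cons, List.append_assoc, h4]
      have h3 : T.J * (p + 1) = T.J * p + T.J := by ring
      apply st_ext
      · simp [run]
      · simp only [run, List.foldl_nil]; omega
      · rfl
    rw [e2, run_rows T hT v (p + 1)]
    apply st_ext
    · simp only [List.length_cons, List.range'_succ, List.flatMap_cons, List.append_assoc]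
      rw [show p + 1 + v.length = p + (v.length + 1) by omega]
    · simp only [List.length_cons]
      rw [show p + 1 + v.length = p + (v.length + 1) by omega]
    · simp only [List.zipIdx_cons, List.flatMap_cons, List.append_assoc]

/-- the regular tiles -/
theorem run_regs {A : Type} (T : Tiles A) (hT : T.Good) (N : ℕ) (hN : 1 ≤ N) : ∀ (M p : ℕ)
    (vs : List (List ℕ × List ℕ)),
    run id ⟨List.range' (4 + T.js + T.J * (N + p) - T.k) T.k ++
        (List.range' p N).flatMap (SS T), 4 + T.js + T.J * (N + p), vs⟩
      (List.replicate M (T.reg ++ [.rot T.k])).flatten =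
    ⟨List.range' (4 + T.js + T.J * (N + (p + M)) - T.k) T.k ++
        (List.range' (p + M) N).flatMap (SS T), 4 + T.js + T.J * (N + (p + M)),
      vs ++ ((List.range' p M).flatMap fun q => tile T.reg (2 * T.k)
        (fun i => if i < T.k then 4 + T.js + T.J * (N + q) - T.k + i
          else 4 + T.js + T.J * (q + 1) - 2 * T.k + (i - T.k)) (4 + T.js + T.J * (N + q)))⟩
  | 0, p, vs => by simp [run]
  | M + 1, p, vs => by
    have hreg := hT.reg
    have hk := hT.hk
    have hJ : 2 * T.k ≤ T.J := hreg.2.2.1
    rw [List.replicate_succ, List.flatten_cons, run_append, run_append]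
    obtain ⟨N', rfl⟩ : ∃ N', N = N' + 1 := ⟨N - 1, by omega⟩
    have e0 : List.range' (4 + T.js + T.J * (N' + 1 + p) - T.k) T.k ++
        (List.range' p (N' + 1)).flatMap (SS T) =
        (List.range (2 * T.k)).map (fun i => if i < T.k then 4 + T.js + T.J * (N' + 1 + p) - T.k + i
          else 4 + T.js + T.J * (p + 1) - 2 * T.k + (i - T.k)) ++
        (List.range' (p + 1) N').flatMap (SS T) := by
      rw [two_mul T.k, map_range_add _ T.k T.k (4 + T.js + T.J * (N' + 1 + p) - T.k)
        (4 + T.js + T.J * (p + 1) - 2 * T.k)]
      · rw [List.range'_succ, List.flatMap_cons, List.append_assoc]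
        rfl
      · intro i hi
        simp only [if_pos hi]
      · intro i hi
        simp only [if_neg (show ¬ (T.k + i < T.k) by omega)]
        omega
    rw [e0, run_tile hreg]
    have e1 : List.range' (4 + T.js + T.J * (N' + 1 + p) + T.J - 2 * T.k) (2 * T.k) =
        SS T (N' + 1 + p) ++ List.range' (4 + T.js + T.J * (N' + 1 + (p + 1)) - T.k) T.k := by
      rw [two_mul T.k, ← List.range'_append_1]
      unfold SS
      have h3 : T.J * (N' + 1 + p + 1) = T.J * (N' + 1 + p) + T.J := by ring
      have h3' : T.J * (N' + 1 + (p + 1)) = T.J * (N' + 1 + p) + T.J := by ring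
      rw [h3, h3']
      congr 2 <;> omega
    rw [e1]
    have e2 : ∀ vs' : List (List ℕ × List ℕ),
        run id ⟨SS T (N' + 1 + p) ++ List.range' (4 + T.js + T.J * (N' + 1 + (p + 1)) - T.k) T.k ++
          (List.range' (p + 1) N').flatMap (SS T), 4 + T.js + T.J * (N' + 1 + p) + T.J, vs'⟩
          [.rot T.k] =
        ⟨List.range' (4 + T.js + T.J * (N' + 1 + (p + 1)) - T.k) T.k ++
          (List.range' (p + 1) (N' + 1)).flatMap (SS T),
          4 + T.js + T.J * (N' + 1 + (p + 1)), vs'⟩ := by
      intro vs'
      have h4 := step_rot (id : ℕ → ℕ) (SS T (N' + 1 + p))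
        (List.range' (4 + T.js + T.J * (N' + 1 + (p + 1)) - T.k) T.k ++
          (List.range' (p + 1) N').flatMap (SS T)) (4 + T.js + T.J * (N' + 1 + p) + T.J) vs'
      rw [SS_length] at h4
      rw [run_cons, List.append_assoc, h4]
      have h3' : T.J * (N' + 1 + (p + 1)) = T.J * (N' + 1 + p) + T.J := by ring
      apply st_ext
      · simp only [run, List.foldl_nil]
        rw [List.append_assoc, ← List.range'_append_1 (s := p + 1) (m := N') (n := 1),
          List.flatMap_append]
        simp [show N' + 1 + p = p + 1 + N' by omega]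
      · simp only [run, List.foldl_nil]; omega
      · rfl
    rw [e2, run_regs T hT (N' + 1) hN M (p + 1)]
    apply st_ext
    · simp only
      rw [show p + 1 + M = p + (M + 1) by omega]
    · simp only
      rw [show p + 1 + M = p + (M + 1) by omega]
    · simp only [List.range'_succ, List.flatMap_cons, List.append_assoc]

/-- the deletion of the states -/
theorem run_drops {A : Type} (T : Tiles A) (hT : T.Good) (c q0 : ℕ) (hc : 3 ≤ c) : ∀ (N p : ℕ)
    (vs : List (List ℕ × List ℕ)),
    run id ⟨List.range' (c + T.jd * p - 3) 3 ++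
        (List.range' (q0 + p) N).flatMap (SS T), c + T.jd * p, vs⟩
      (List.replicate N T.drop).flatten =
    ⟨List.range' (c + T.jd * (p + N) - 3) 3, c + T.jd * (p + N),
      vs ++ ((List.range' p N).flatMap fun p => tile T.drop (3 + T.k)
        (fun i => if i < 3 then c + T.jd * p - 3 + i
          else 4 + T.js + T.J * (q0 + p + 1) - 2 * T.k + (i - 3)) (c + T.jd * p))⟩
  | 0, p, vs => by simp [run]
  | N + 1, p, vs => by
    have hdrop := hT.drop
    have hk := hT.hk
    rw [List.replicate_succ, List.flatten_cons, run_append]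
    have e0 : List.range' (c + T.jd * p - 3) 3 ++ (List.range' (q0 + p) (N + 1)).flatMap (SS T) =
        (List.range (3 + T.k)).map (fun i => if i < 3 then c + T.jd * p - 3 + i
          else 4 + T.js + T.J * (q0 + p + 1) - 2 * T.k + (i - 3)) ++
        (List.range' (q0 + (p + 1)) N).flatMap (SS T) := by
      rw [map_range_add _ 3 T.k (c + T.jd * p - 3) (4 + T.js + T.J * (q0 + p + 1) - 2 * T.k)]
      · rw [List.range'_succ (s := q0 + p), List.flatMap_cons, List.append_assoc]
        rfl
      · intro i hi
        simp only [if_pos hi]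
      · intro i hi
        simp only [if_neg (show ¬ (3 + i < 3) by omega)]
        omega
    rw [e0, run_tile hdrop]
    have h3 : c + T.jd * p + T.jd = c + T.jd * (p + 1) := by ring
    rw [h3, run_drops T hT c q0 hc N (p + 1)]
    apply st_ext
    · simp only
      rw [show p + 1 + N = p + (N + 1) by omega]
    · simp only
      rw [show p + 1 + N = p + (N + 1) by omega]
    · simp only [List.range'_succ, List.flatMap_cons, List.append_assoc]

theorem gru : GruStmt := by
  intro A T hT v M hv
  have hN : 1 ≤ v.length := by
    rcases v with _ | ⟨a, v⟩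
    · exact absurd rfl hv
    · simp
  have hfin : 3 ≤ T.jf := hT.fin.2.2.1
  have hstart : T.k ≤ T.js := hT.start.2.2.1
  unfold fin closed
  rw [run_cons, run_cons]
  have e1 : step id (step id (⟨[], 0, []⟩ : St ℕ) (.vtx 0 0 2)) (.vtx 0 1 2) =
      ⟨(List.range 3).map (fun i => if i = 2 then 1 else 2 + i) ++ [], 4,
        [([], [0, 1]), ([0], [2, 3])]⟩ := by
    rfl
  rw [e1]
  unfold Tiles.word
  rw [run_append, run_append, run_tile hT.start, run_append]
  have h1 := run_rows T hT v 0 ([([], [0, 1]), ([0], [2, 3])] ++
    tile T.start 3 (fun i => if i = 2 then 1 else 2 + i) 4) []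
  simp only [Nat.mul_zero, Nat.add_zero, Nat.zero_add, List.nil_append] at h1
  rw [h1, run_append]
  have h2 := run_regs T hT v.length hN M 0 ([([], [0, 1]), ([0], [2, 3])] ++
    tile T.start 3 (fun i => if i = 2 then 1 else 2 + i) 4 ++
      ((v.zipIdx 0).flatMap fun x => tile (T.row x.1) T.k
        (fun i => 4 + T.js + T.J * x.2 - T.k + i) (4 + T.js + T.J * x.2)))
  simp only [Nat.add_zero, Nat.zero_add] at h2
  rw [h2, run_append]
  rw [range'_eq_map (4 + T.js + T.J * (v.length + M) - T.k) T.k]
  rw [run_tile hT.fin (fun i => 4 + T.js + T.J * (v.length + M) - T.k + i), run_append]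
  have h3 := run_drops T hT (4 + T.js + T.J * (v.length + M) + T.jf) M (by omega) v.length 0
  simp only [Nat.mul_zero, Nat.add_zero, Nat.zero_add] at h3
  rw [h3]
  have e2 : List.range' (4 + T.js + T.J * (v.length + M) + T.jf + T.jd * v.length - 3) 3 =
      [4 + T.js + T.J * (v.length + M) + T.jf + T.jd * v.length - 3,
        4 + T.js + T.J * (v.length + M) + T.jf + T.jd * v.length - 2,
        4 + T.js + T.J * (v.length + M) + T.jf + T.jd * v.length - 1] := by
    simp only [List.range'_succ, List.range'_zero]
    congr 2
    · omega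
    · congr 1; omega
  rw [e2]
  apply st_ext
  · rfl
  · rfl
  · unfold Tiles.allVs
    simp only [run, List.foldl_cons, List.foldl_nil, step, List.take_zero, List.drop_zero,
      List.nil_append, List.take_succ_cons, List.drop_succ_cons, List.append_assoc,
      List.range_eq_range']
    rfl

end Pool.Agent.HAM.H66
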