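import Pool.Agent.Helper43_HAM.Stmts

/-!
# HAM, module TAB: the computation of a verifier as a helical system
-/

namespace Pool.Agent.HAM.H66

open Pool.Agent.HAM Pool.Agent.Common_CookLevin

section Tab

variable {Col B : Type}

/-- the condition for the first row: letter, colour of the cell before, colour of the cell -/
def rowCond (blank : Col) (ini : Bool → Col) (gs : B → Col) :
    (Bool ⊕ Unit) ⊕ Unit → Col → Col → Prop
  | .inl (.inl b), _, x => x = ini b
  | .inl (.inr ()), y, x => (x = blank ∨ ∃ b, x = gs b) ∧ (y = blank → x = blank)
  | .inr (), _, x => x = blank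

/-- the helical system of a tableau; a state consists of three consecutive cells -/
def tabH [Fintype Col] [DecidableEq Col] (dummy start blank : Col) (ini : Bool → Col)
    (gs : B → Col) (Acc : Set Col) (F : Col → Col → Col → Col → Col) :
    HSys ((Bool ⊕ Unit) ⊕ Unit) where
  Q := Col × Col × Col
  fin := inferInstance
  dec := inferInstance
  init := (start, dummy, dummy)
  row a s t := t.2.1 = s.1 ∧ t.2.2 = s.2.1 ∧ rowCond blank ini gs a s.1 t.1
  next s t := (F t.2.2 t.2.1 t.1 s.1, s.1, s.2.1)
  acc s := s.1 ∈ Acc

/-- the state before the cell `i` -/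
def wst (dummy start : Col) (s : List (Col × Col × Col)) (i : ℕ) : Col × Col × Col :=
  ((start, dummy, dummy) :: s).getD i (start, dummy, dummy)

/-- accepting runs, explicitly -/
def RunP (dummy start blank : Col) (ini : Bool → Col)
    (gs : B → Col) (Acc : Set Col) (F : Col → Col → Col → Col → Col)
    (v : List ((Bool ⊕ Unit) ⊕ Unit)) (M : ℕ) (s : List (Col × Col × Col)) : Prop :=
  s.length = v.length + M ∧
  (∀ i a, v[i]? = some a →
    (s.getD i (start, dummy, dummy)).2.1 = (wst dummy start s i).1 ∧
    (s.getD i (start, dummy, dummy)).2.2 = (wst dummy start s i).2.1 ∧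
    rowCond blank ini gs a (wst dummy start s i).1 (s.getD i (start, dummy, dummy)).1) ∧
  (∀ j < M, s.getD (v.length + j) (start, dummy, dummy) =
    (F (s.getD j (start, dummy, dummy)).2.2 (s.getD j (start, dummy, dummy)).2.1
      (s.getD j (start, dummy, dummy)).1 (wst dummy start s (v.length + j)).1,
      (wst dummy start s (v.length + j)).1, (wst dummy start s (v.length + j)).2.1)) ∧
  (wst dummy start s (v.length + M)).1 ∈ Acc

theorem isRun_iff [Fintype Col] [DecidableEq Col] (dummy start blank : Col) (ini : Bool → Col)
    (gs : B → Col) (Acc : Set Col) (F : Col → Col → Col → Col → Col)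
    (v : List ((Bool ⊕ Unit) ⊕ Unit)) (M : ℕ) (s : List (Col × Col × Col)) :
    (tabH dummy start blank ini gs Acc F).IsRun v M s ↔
      RunP dummy start blank ini gs Acc F v M s := Iff.rfl

/-- the list of the triples of consecutive cells -/
def stt (c : ℕ → Col) (K : ℕ) : List (Col × Col × Col) :=
  (List.range K).map fun q => (c (q + 2), c (q + 1), c q)

theorem stt_length (c : ℕ → Col) (K : ℕ) : (stt c K).length = K := by simp [stt]

theorem getD_stt (c : ℕ → Col) {K i : ℕ} (hi : i < K) (x : Col × Col × Col) :
    (stt c K).getD i x = (c (i + 2), c (i + 1), c i) := by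
  rw [List.getD_eq_getElem _ _ (by rw [stt_length]; exact hi)]
  simp [stt]

theorem wst_stt {dummy start : Col} {c : ℕ → Col} (h0 : c 0 = dummy) (h1 : c 1 = start)
    {K i : ℕ} (hi : i ≤ K) :
    (wst dummy start (stt c K) i).1 = c (i + 1) ∧
      (wst dummy start (stt c K) i).2.1 = c i := by
  unfold wst
  cases i with
  | zero => exact ⟨h1.symm, h0.symm⟩
  | succ i =>
    rw [List.getD_cons_succ, getD_stt c (by omega)]
    exact ⟨rfl, rfl⟩

/-- the sequence of cells is correct -/
structure GoodSeq (dummy start blank : Col) (ini : Bool → Col) (gs : B → Col) (Acc : Set Col)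
    (F : Col → Col → Col → Col → Col) (w : List Bool) (N T M : ℕ) (c : ℕ → Col) : Prop where
  c0 : c 0 = dummy
  c1 : c 1 = start
  first : ∀ i a, (twoPad w N T)[i]? = some a → rowCond blank ini gs a (c (i + 1)) (c (i + 2))
  rule : ∀ j < M, c (j + (w.length + N + T + 1) + 1) =
    F (c j) (c (j + 1)) (c (j + 2)) (c (j + (w.length + N + T + 1)))
  acc : c (w.length + N + T + 1 + M) ∈ Acc

theorem isRun_stt {dummy start blank : Col} {ini : Bool → Col}
    {gs : B → Col} {Acc : Set Col} {F : Col → Col → Col → Col → Col} {w : List Bool}
    {N T M : ℕ} {c : ℕ → Col} (h : GoodSeq dummy start blank ini gs Acc F w N T M c) :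
    RunP dummy start blank ini gs Acc F (twoPad w N T) M
      (stt c (w.length + N + T + M)) := by
  refine ⟨?_, ?_, ?_, ?_⟩
  · rw [stt_length, twoPad_length]
  · intro i a hia
    have hi : i < w.length + N + T := by
      rw [← twoPad_length w N T]
      by_contra hcon
      rw [List.getElem?_eq_none (by omega)] at hia
      cases hia
    have h1 := wst_stt h.c0 h.c1 (K := w.length + N + T + M) (i := i) (by omega)
    have h2 := getD_stt c (K := w.length + N + T + M) (i := i) (by omega) (start, dummy, dummy)
    rw [h1.1, h1.2, h2]
    exact ⟨rfl, rfl, h.first i a hia⟩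
  · intro j hj
    rw [twoPad_length]
    have h1 := wst_stt h.c0 h.c1 (K := w.length + N + T + M) (i := w.length + N + T + j)
      (by omega)
    have h2 := getD_stt c (K := w.length + N + T + M) (i := j) (by omega) (start, dummy, dummy)
    have h3 := getD_stt c (K := w.length + N + T + M) (i := w.length + N + T + j) (by omega)
      (start, dummy, dummy)
    rw [h3, h2, h1.1, h1.2]
    have h4 := h.rule j hj
    rw [show w.length + N + T + j + 2 = j + (w.length + N + T + 1) + 1 by omega,
      show w.length + N + T + j + 1 = j + (w.length + N + T + 1) by omega, h4]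
  · rw [twoPad_length]
    have h1 := wst_stt h.c0 h.c1 (K := w.length + N + T + M) (i := w.length + N + T + M)
      (by omega)
    rw [h1.1, show w.length + N + T + M + 1 = w.length + N + T + 1 + M by omega]
    exact h.acc

theorem exists_seq {dummy start blank : Col} {ini : Bool → Col}
    {gs : B → Col} {Acc : Set Col} {F : Col → Col → Col → Col → Col} {w : List Bool}
    {N T M : ℕ} {s : List (Col × Col × Col)}
    (h : RunP dummy start blank ini gs Acc F (twoPad w N T) M s) :
    ∃ c, GoodSeq dummy start blank ini gs Acc F w N T M c ∧
      s = stt c (w.length + N + T + M) := by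
  obtain ⟨h1, h2, h3, h4⟩ := h
  rw [twoPad_length] at h1 h3 h4
  let u : ℕ → Col × Col × Col := wst dummy start s
  have hu : ∀ i, s.getD i (start, dummy, dummy) = u (i + 1) := by
    intro i
    simp only [u, wst, List.getD_cons_succ]
  let c : ℕ → Col := fun p => match p with
    | 0 => dummy
    | p + 1 => (u p).1
  have hc0 : c 0 = dummy := rfl
  have hc1 : ∀ p, c (p + 1) = (u p).1 := fun p => rfl
  -- consecutive states overlap
  have key : ∀ i, i ≤ w.length + N + T + M → (u i).2.1 = c i ∧
      (i < w.length + N + T + M → (u (i + 1)).2.2 = c i ∧ (u (i + 1)).2.1 = c (i + 1)) := by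
    intro i
    induction i with
    | zero =>
      intro _
      refine ⟨rfl, fun hi => ?_⟩
      have hs : (u 1).2.1 = (u 0).1 ∧ (u 1).2.2 = (u 0).2.1 := by
        by_cases hn : 0 < w.length + N + T
        · have hv : (twoPad w N T)[0]? = some ((twoPad w N T)[0]'(by
            rw [twoPad_length]; exact hn)) := List.getElem?_eq_getElem _
          have h5 := h2 0 _ hv
          rw [hu] at h5
          exact ⟨h5.1, h5.2.1⟩
        · have h5 := h3 0 (by omega)
          rw [hu] at h5
          have hn0 : w.length + N + T = 0 := by omega
          rw [hn0] at h5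
          rw [Nat.zero_add] at h5
          rw [h5]
          exact ⟨rfl, rfl⟩
      exact ⟨hs.2, hs.1⟩
    | succ i ih =>
      intro hi
      have ih' := (ih (by omega)).2 (by omega)
      refine ⟨ih'.2, fun hi2 => ?_⟩
      have hs : (u (i + 2)).2.1 = (u (i + 1)).1 ∧ (u (i + 2)).2.2 = (u (i + 1)).2.1 := by
        by_cases hn : i + 1 < w.length + N + T
        · have hv : (twoPad w N T)[i + 1]? = some ((twoPad w N T)[i + 1]'(by
            rw [twoPad_length]; exact hn)) := List.getElem?_eq_getElem _
          have h5 := h2 (i + 1) _ hv
          rw [hu] at h5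
          exact ⟨h5.1, h5.2.1⟩
        · have h5 := h3 (i + 1 - (w.length + N + T)) (by omega)
          rw [hu] at h5
          have hn0 : w.length + N + T + (i + 1 - (w.length + N + T)) = i + 1 := by omega
          rw [hn0] at h5
          rw [h5]
          exact ⟨rfl, rfl⟩
      refine ⟨?_, ?_⟩
      · rw [hs.2, ih'.2]
      · rw [hs.1]
  have hstate : ∀ i, i < w.length + N + T + M →
      s.getD i (start, dummy, dummy) = (c (i + 2), c (i + 1), c i) := by
    intro i hi
    rw [hu]
    have h5 := (key i (by omega)).2 hi
    rw [← h5.1, ← h5.2]
  refine ⟨c, ⟨hc0, rfl, ?_, ?_, ?_⟩, ?_⟩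
  · intro i a hia
    have hi : i < w.length + N + T := by
      rw [← twoPad_length w N T]
      by_contra hcon
      rw [List.getElem?_eq_none (by omega)] at hia
      cases hia
    have h5 := (h2 i a hia).2.2
    rw [hstate i (by omega)] at h5
    exact h5
  · intro j hj
    have h5 := h3 j hj
    rw [hstate j (by omega), hstate (w.length + N + T + j) (by omega)] at h5
    have h6 := congrArg Prod.fst h5
    change c (w.length + N + T + j + 2) = F (c j) (c (j + 1)) (c (j + 2)) (u (w.length + N + T + j)).1
      at h6
    rw [← hc1] at h6
    rw [show w.length + N + T + j + 2 = j + (w.length + N + T + 1) + 1 by omega,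
      show w.length + N + T + j + 1 = j + (w.length + N + T + 1) by omega] at h6
    exact h6
  · have h5 : (u (w.length + N + T + M)).1 ∈ Acc := h4
    rw [← hc1] at h5
    rw [show w.length + N + T + 1 + M = w.length + N + T + M + 1 by omega]
    exact h5
  · apply List.ext_getElem
    · rw [h1, stt_length]
    · intro i hi hi'
      rw [h1] at hi
      have h5 := hstate i hi
      rw [← getD_stt c hi (start, dummy, dummy)] at h5
      rwa [List.getD_eq_getElem _ _ (by rw [h1]; exact hi),
        List.getD_eq_getElem _ _ (by rw [stt_length]; exact hi)] at h5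

/-- the tableau of a certificate -/
theorem goodSeq_tab {dummy start blank : Col} {ini : Bool → Col}
    {gs : B → Col} {Acc : Set Col} {F : Col → Col → Col → Col → Col} {w : List Bool}
    {N T M : ℕ} (hW : 2 ≤ w.length + N + T + 1) (hgs : ∀ b, gs b ≠ blank)
    (hini : ∀ b, ini b ≠ blank) (hst : start ≠ blank) {cert : List B} (hcert : cert.length ≤ N)
    (hacc : tabSeq (w.length + N + T + 1) hW F (firstRow dummy start blank ini gs w cert)
        (w.length + N + T + 1 + M) ∈ Acc) :
    GoodSeq dummy start blank ini gs Acc F w N T M
      (tabSeq (w.length + N + T + 1) hW F (firstRow dummy start blank ini gs w cert)) := by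
  have hrow : ∀ q, q ≤ w.length + N + T + 1 →
      tabSeq (w.length + N + T + 1) hW F (firstRow dummy start blank ini gs w cert) q =
      firstRow dummy start blank ini gs w cert q := fun q hq => tabSeq_le hW F _ hq
  refine ⟨hrow 0 (by omega), hrow 1 (by omega), ?_, ?_, hacc⟩
  · intro i a hia
    have hi : i < w.length + N + T := by
      rw [← twoPad_length w N T]
      by_contra hcon
      rw [List.getElem?_eq_none (by omega)] at hia
      cases hia
    have hi' : i < (twoPad w N T).length := by rw [twoPad_length]; exact hi
    rw [List.getElem?_eq_getElem hi'] at hia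
    obtain rfl := Option.some.inj hia
    rw [hrow _ (by omega), hrow _ (by omega), firstRow_add_two]
    by_cases c1 : i < w.length
    · rw [twoPad_ini w N T i c1 hi', dif_pos c1]
      rfl
    · rw [dif_neg c1]
      by_cases c2 : i < w.length + N
      · rw [twoPad_guess w N T i (by omega) c2 hi']
        constructor
        · cases h1 : cert[i - w.length]? with
          | none => exact Or.inl rfl
          | some b => exact Or.inr ⟨b, rfl⟩
        · intro hb
          -- the cell before is blank
          cases i with
          | zero => exact absurd hb hst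
          | succ i =>
            rw [show i + 1 + 1 = i + 2 by ring, firstRow_add_two] at hb
            by_cases c3 : i < w.length
            · rw [dif_pos c3] at hb
              exact absurd hb (hini _)
            · rw [dif_neg c3] at hb
              cases h1 : cert[i - w.length]? with
              | none =>
                have h2 : cert[i + 1 - w.length]? = none := by
                  rw [List.getElem?_eq_none_iff] at h1 ⊢
                  omega
                rw [h2]
                rfl
              | some b =>
                rw [h1] at hb
                exact absurd hb (hgs b)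
      · rw [twoPad_blank w N T i (by omega) hi']
        have h2 : cert[i - w.length]? = none := by
          rw [List.getElem?_eq_none_iff]
          omega
        rw [h2]
        rfl
  · intro j _
    exact tabSeq_rec hW F _ j

/-- every good sequence is the tableau of a certificate -/
theorem exists_cert {dummy start blank : Col} {ini : Bool → Col}
    {gs : B → Col} {Acc : Set Col} {F : Col → Col → Col → Col → Col} {w : List Bool}
    {N T M : ℕ} (hT : 0 < T) (hW : 2 ≤ w.length + N + T + 1) {c : ℕ → Col}
    (h : GoodSeq dummy start blank ini gs Acc F w N T M c) :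
    ∃ cert : List B, cert.length ≤ N ∧ ∀ p ≤ w.length + N + T + 1 + M, c p =
      tabSeq (w.length + N + T + 1) hW F (firstRow dummy start blank ini gs w cert) p := by
  have hini : ∀ (j : ℕ) (hj : j < w.length), c (j + 2) = ini w[j] := by
    intro j hj
    have hj2 : j < (twoPad w N T).length := by rw [twoPad_length]; omega
    have h1 := h.first j _ (List.getElem?_eq_getElem hj2)
    rw [twoPad_ini w N T j hj hj2] at h1
    exact h1
  have hguess : ∀ j, w.length ≤ j → j < w.length + N →
      (c (j + 2) = blank ∨ ∃ b, c (j + 2) = gs b) ∧ (c (j + 1) = blank → c (j + 2) = blank) := by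
    intro j hj hj1
    have hj2 : j < (twoPad w N T).length := by rw [twoPad_length]; omega
    have h1 := h.first j _ (List.getElem?_eq_getElem hj2)
    rw [twoPad_guess w N T j hj hj1 hj2] at h1
    exact h1
  have hblank : ∀ j, w.length + N ≤ j → j < w.length + N + T → c (j + 2) = blank := by
    intro j hj hj1
    have hj2 : j < (twoPad w N T).length := by rw [twoPad_length]; omega
    have h1 := h.first j _ (List.getElem?_eq_getElem hj2)
    rw [twoPad_blank w N T j hj hj2] at h1
    exact h1
  have hex : ∃ k, c (w.length + k + 2) = blank := ⟨N, hblank _ (le_refl _) (by omega)⟩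
  classical
  let k := Nat.find hex
  have hk : c (w.length + k + 2) = blank := Nat.find_spec hex
  have hk' : ∀ j < k, ¬ c (w.length + j + 2) = blank := fun j hj => Nat.find_min hex hj
  have hkN : k ≤ N := Nat.find_min' hex (hblank _ (le_refl _) (by omega))
  have hb : ∀ j : Fin k, ∃ b, c (w.length + j.val + 2) = gs b := by
    intro j
    rcases (hguess (w.length + j.val) (by omega) (by omega)).1 with h | h
    · exact absurd h (hk' j.val j.isLt)
    · exact h
  choose b hb using hb
  have hbl : ∀ j, k ≤ j → j < N + T → c (w.length + j + 2) = blank := by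
    intro j hj
    induction j, hj using Nat.le_induction with
    | base => intro _; exact hk
    | succ j hj ih =>
      intro hj2
      by_cases hc : j + 1 < N
      · exact (hguess (w.length + (j + 1)) (by omega) (by omega)).2 (ih (by omega))
      · exact hblank (w.length + (j + 1)) (by omega) (by omega)
  refine ⟨List.ofFn b, by simpa using hkN, ?_⟩
  intro p
  induction p using Nat.strong_induction_on with
  | _ p ih =>
    intro hp
    by_cases hc : p ≤ w.length + N + T + 1
    · rw [tabSeq_le hW F _ hc]
      match p, hc with
      | 0, _ => exact h.c0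
      | 1, _ => exact h.c1
      | q + 2, hc =>
        rw [firstRow_add_two]
        by_cases c1 : q < w.length
        · rw [dif_pos c1]
          exact hini q c1
        · rw [dif_neg c1]
          by_cases c2 : q - w.length < k
          · have e1 : (List.ofFn b)[q - w.length]? = some (b ⟨q - w.length, c2⟩) := by
              rw [List.getElem?_eq_getElem (by simpa using c2), List.getElem_ofFn]
            rw [e1]
            have := hb ⟨q - w.length, c2⟩
            have e2 : w.length + (q - w.length) + 2 = q + 2 := by omega
            simp only [e2] at this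
            exact this
          · have e1 : (List.ofFn b)[q - w.length]? = none := by
              rw [List.getElem?_eq_none_iff]
              simp only [List.length_ofFn]
              omega
            rw [e1]
            have := hbl (q - w.length) (by omega) (by omega)
            have e2 : w.length + (q - w.length) + 2 = q + 2 := by omega
            rw [e2] at this
            exact this
    · obtain ⟨p', rfl⟩ : ∃ p', p = p' + (w.length + N + T + 1) + 1 :=
        ⟨p - (w.length + N + T + 1) - 1, by omega⟩
      rw [tabSeq_rec, h.rule p' (by omega), ih p' (by omega) (by omega),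
        ih (p' + 1) (by omega) (by omega), ih (p' + 2) (by omega) (by omega),
        ih (p' + (w.length + N + T + 1)) (by omega) (by omega)]

theorem tab_count [Fintype Col] [DecidableEq Col] (dummy start blank : Col) (ini : Bool → Col)
    (gs : B → Col) (Acc : Set Col) (F : Col → Col → Col → Col → Col) (w : List Bool)
    (N T M : ℕ) (hT : 0 < T) (hW : 2 ≤ w.length + N + T + 1) (hgs : ∀ b, gs b ≠ blank)
    (hinj : Function.Injective gs) (hini : ∀ b, ini b ≠ blank) (hst : start ≠ blank) :
    (tabH dummy start blank ini gs Acc F).count (twoPad w N T) M =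
      Nat.card {cert : List B // cert.length ≤ N ∧
        tabSeq (w.length + N + T + 1) hW F (firstRow dummy start blank ini gs w cert)
          (w.length + N + T + 1 + M) ∈ Acc} := by
  unfold HSys.count
  symm
  let φ : {cert : List B // cert.length ≤ N ∧
        tabSeq (w.length + N + T + 1) hW F (firstRow dummy start blank ini gs w cert)
          (w.length + N + T + 1 + M) ∈ Acc} →
      {s : List (Col × Col × Col) //
        RunP dummy start blank ini gs Acc F (twoPad w N T) M s} := fun cert =>
    ⟨stt (tabSeq (w.length + N + T + 1) hW F (firstRow dummy start blank ini gs w cert.1))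
      (w.length + N + T + M),
      isRun_stt (goodSeq_tab hW hgs hini hst cert.2.1 cert.2.2)⟩
  refine Nat.card_congr (Equiv.ofBijective φ ⟨?_, ?_⟩)
  · rintro ⟨cert, hc1, hc2⟩ ⟨cert', hc1', hc2'⟩ heq
    have heq' := congrArg Subtype.val heq
    simp only [φ] at heq'
    apply Subtype.ext
    change cert = cert'
    apply List.ext_getElem?
    intro i
    by_cases hi : i < N
    · have h1 := congrArg (fun s => s.getD (w.length + i) (start, dummy, dummy)) heq'
      rw [getD_stt _ (by omega), getD_stt _ (by omega)] at h1
      have h2 := (Prod.mk.inj h1).1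
      rw [tabSeq_le hW F _ (by omega), tabSeq_le hW F _ (by omega), firstRow_add_two,
        firstRow_add_two, dif_neg (by omega), dif_neg (by omega), Nat.add_sub_cancel_left] at h2
      cases h3 : cert[i]? with
      | none =>
        cases h4 : cert'[i]? with
        | none => rfl
        | some b =>
          rw [h3, h4] at h2
          exact absurd h2.symm (hgs b)
      | some b =>
        cases h4 : cert'[i]? with
        | none =>
          rw [h3, h4] at h2
          exact absurd h2 (hgs b)
        | some b' =>
          rw [h3, h4] at h2
          rw [hinj h2]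
    · rw [List.getElem?_eq_none (by omega), List.getElem?_eq_none (by omega)]
  · rintro ⟨s, hs⟩
    obtain ⟨c, hc, rfl⟩ := exists_seq hs
    obtain ⟨cert, hlen, hcert⟩ := exists_cert hT hW hc
    refine ⟨⟨cert, hlen, ?_⟩, ?_⟩
    · rw [← hcert _ (le_refl _)]
      exact hc.acc
    · apply Subtype.ext
      change stt _ _ = stt _ _
      unfold stt
      apply List.map_congr_left
      intro q hq
      rw [List.mem_range] at hq
      rw [← hcert (q + 2) (by omega), ← hcert (q + 1) (by omega), ← hcert q (by omega)]

end Tab

open Turing Function Computability Pool.Agent.Helper32_Poly Pool.Agent.Helper32_HCK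

theorem tLetter_injective (tm : FinTM2) : Function.Injective (tLetter tm) := by
  let _ := tm.kDecidableEq
  intro g g' h
  have h1 := congrArg (fun x : TCol tm => x.1.ct tm.k₀) h
  simp [tLetter] at h1
  exact h1

theorem tStart_ne (tm : FinTM2) : tStart tm ≠ tBlank tm := by
  intro h
  have h1 := congrArg (fun x : TCol tm => x.1.1) h
  simp [tStart, tBlank] at h1

theorem tab : TabStmt := by
  intro L B hB V q hV
  obtain ⟨⟨⟨tm, e₀, e₁⟩, time, out⟩⟩ := hV
  simp only at out
  classical
  have : Fintype (TCol tm) := Fintype.ofFinite _
  let _ := tm.ΛFin
  let D := ∑ l, depth (tm.m l)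
  let qT : Polynomial ℕ := time * (D : Polynomial ℕ) + 1
  let qM : Polynomial ℕ := (Polynomial.X + 1) ^ 2 + 2
  refine ⟨tabH (tBlank tm) (tStart tm) (tBlank tm) (fun b => tLetter tm (e₀.symm (.inl b)))
    (fun b => tLetter tm (e₀.symm (.inr b))) (tAcc tm e₁) (tRuleFn tm), qT, qM, ?_⟩
  intro w
  have hlen1 : (pad q w).length = w.length + q.eval w.length := by
    simp [pad]
  have hT : qT.eval (w.length + q.eval w.length) =
      time.eval (w.length + q.eval w.length) * D + 1 := by
    simp [qT]
  have hpad1 : pad qT (pad q w) = twoPad w (q.eval w.length)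
      (time.eval (w.length + q.eval w.length) * D + 1) := by
    rw [pad, hlen1, hT]
    rfl
  have hM : qM.eval (pad qT (pad q w)).length = (w.length + q.eval w.length +
        (time.eval (w.length + q.eval w.length) * D + 1) + 1) ^ 2 + 2 := by
    rw [hpad1, twoPad_length]
    simp [qM]
  constructor
  · intro h
    have h1 := congrArg List.length h
    rw [hpad1, twoPad_length, List.length_nil] at h1
    omega
  · rw [hM, hpad1, tab_count _ _ _ _ _ _ _ w _ _ _ (Nat.succ_pos _) (by omega)
      (fun b => tLetter_ne tm _)
      (fun b b' h => by simpa using tLetter_injective tm h)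
      (fun b => tLetter_ne tm _) (tStart_ne tm)]
    refine Nat.card_congr (Equiv.subtypeEquivRight fun c => and_congr_right fun hc => ?_)
    have hout := out (w, c)
    have hl : ((languageProblem L).encPair (w, c)).length = w.length + c.length := by
      change (w.map Sum.inl ++ c.map Sum.inr).length = _
      rw [List.length_append, List.length_map, List.length_map]
    rw [hl] at hout
    have hR : time.eval (w.length + c.length) * D <
        time.eval (w.length + q.eval w.length) * D + 1 :=
      Nat.lt_succ_of_le (Nat.mul_le_mul_right _ (poly_eval_mono time (by omega)))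
    exact tableau_acc tm e₀ e₁ w c (V (w, c)) (q.eval w.length) _ D rfl _ hc hR (by omega)
      hout

end Pool.Agent.HAM.H66
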